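import Pool.Agent.V114.ClonFourier

/-!
# MP_2f8e94: finite equational bases for finitely generated clonoids between finite modules

We prove that for all modules `A`, `B` over finite rings `R`, `S` and every finite family `F` of
finitary operations from `A` to `B` the two-sorted algebra `M(A, B, F)` has a finite equational
basis.
-/

namespace Pool.Agent.Results.MP_2f8e94_al.FiniteBasis

/-- The finitary operations from `A` to `B`: a pair `⟨n, f⟩` is an operation `f` of arity
`n + 1` (so all arities `≥ 1` occur). -/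
abbrev Op (A B : Type*) := Σ n : ℕ, ((Fin (n + 1) → A) → B)

/-- Terms of sort 1: module terms in the variables of sort 1 (indexed by `ℕ`). -/
inductive Tm1 (R : Type*)
  | var : ℕ → Tm1 R
  | zero : Tm1 R
  | add : Tm1 R → Tm1 R → Tm1 R
  | neg : Tm1 R → Tm1 R
  | smul : R → Tm1 R → Tm1 R

/-- Terms of sort 2, for operation symbols indexed by `ι`, with arities `ar`. -/
inductive Tm2 (R S : Type*) {ι : Type*} (ar : ι → ℕ)
  | var : ℕ → Tm2 R S ar
  | zero : Tm2 R S ar
  | add : Tm2 R S ar → Tm2 R S ar → Tm2 R S ar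
  | neg : Tm2 R S ar → Tm2 R S ar
  | smul : S → Tm2 R S ar → Tm2 R S ar
  | app : (i : ι) → (Fin (ar i) → Tm1 R) → Tm2 R S ar

/-- Substitution of sort-1 terms for the variables of a sort-1 term. -/
def Tm1.subst {R : Type*} (σ : ℕ → Tm1 R) : Tm1 R → Tm1 R
  | .var k => σ k
  | .zero => .zero
  | .add p q => .add (p.subst σ) (q.subst σ)
  | .neg p => .neg (p.subst σ)
  | .smul r p => .smul r (p.subst σ)

/-- Simultaneous substitution in a sort-2 term. -/
def Tm2.subst {R S : Type*} {ι : Type*} {ar : ι → ℕ} (σ : ℕ → Tm1 R) (τ : ℕ → Tm2 R S ar) :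
    Tm2 R S ar → Tm2 R S ar
  | .var k => τ k
  | .zero => .zero
  | .add p q => .add (p.subst σ τ) (q.subst σ τ)
  | .neg p => .neg (p.subst σ τ)
  | .smul r p => .smul r (p.subst σ τ)
  | .app i t => .app i (fun j => (t j).subst σ)

/-- Value of a sort-1 term in the module `A`. -/
def Tm1.eval {R A : Type*} [Ring R] [AddCommGroup A] [Module R A] (x : ℕ → A) : Tm1 R → A
  | .var k => x k
  | .zero => 0
  | .add p q => p.eval x + q.eval x
  | .neg p => - p.eval x
  | .smul r p => r • p.eval x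

/-- Value of a sort-2 term, where the operation symbol `i` is interpreted by `F i`. -/
def Tm2.eval {R S A B : Type*} [Ring R] [Ring S] [AddCommGroup A] [Module R A] [AddCommGroup B]
    [Module S B] {ι : Type*} {ar : ι → ℕ} (F : ∀ i, (Fin (ar i) → A) → B) (x : ℕ → A)
    (y : ℕ → B) : Tm2 R S ar → B
  | .var k => y k
  | .zero => 0
  | .add p q => p.eval F x y + q.eval F x y
  | .neg p => - p.eval F x y
  | .smul r p => r • p.eval F x y
  | .app i t => F i (fun j => (t j).eval x)

/-- Equational derivability between sort-1 terms from the set `E₁` of sort-1 identities. -/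
inductive Der1 {R : Type*} (E₁ : Set (Tm1 R × Tm1 R)) : Tm1 R → Tm1 R → Prop
  | ax (p q : Tm1 R) (h : (p, q) ∈ E₁) (σ : ℕ → Tm1 R) : Der1 E₁ (p.subst σ) (q.subst σ)
  | refl (p : Tm1 R) : Der1 E₁ p p
  | symm (p q : Tm1 R) : Der1 E₁ p q → Der1 E₁ q p
  | trans (p q r : Tm1 R) : Der1 E₁ p q → Der1 E₁ q r → Der1 E₁ p r
  | add (p p' q q' : Tm1 R) : Der1 E₁ p p' → Der1 E₁ q q' → Der1 E₁ (p.add q) (p'.add q')
  | neg (p p' : Tm1 R) : Der1 E₁ p p' → Der1 E₁ p.neg p'.neg
  | smul (r : R) (p p' : Tm1 R) : Der1 E₁ p p' → Der1 E₁ (p.smul r) (p'.smul r)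

/-- Equational derivability between sort-2 terms from the sets `E₁` (sort 1) and `E₂` (sort 2) of
identities. -/
inductive Der2 {R S : Type*} {ι : Type*} {ar : ι → ℕ} (E₁ : Set (Tm1 R × Tm1 R))
    (E₂ : Set (Tm2 R S ar × Tm2 R S ar)) : Tm2 R S ar → Tm2 R S ar → Prop
  | ax (p q : Tm2 R S ar) (h : (p, q) ∈ E₂) (σ : ℕ → Tm1 R) (τ : ℕ → Tm2 R S ar) :
      Der2 E₁ E₂ (p.subst σ τ) (q.subst σ τ)
  | refl (p : Tm2 R S ar) : Der2 E₁ E₂ p p
  | symm (p q : Tm2 R S ar) : Der2 E₁ E₂ p q → Der2 E₁ E₂ q p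
  | trans (p q r : Tm2 R S ar) : Der2 E₁ E₂ p q → Der2 E₁ E₂ q r → Der2 E₁ E₂ p r
  | add (p p' q q' : Tm2 R S ar) :
      Der2 E₁ E₂ p p' → Der2 E₁ E₂ q q' → Der2 E₁ E₂ (p.add q) (p'.add q')
  | neg (p p' : Tm2 R S ar) : Der2 E₁ E₂ p p' → Der2 E₁ E₂ p.neg p'.neg
  | smul (r : S) (p p' : Tm2 R S ar) : Der2 E₁ E₂ p p' → Der2 E₁ E₂ (p.smul r) (p'.smul r)
  | app (i : ι) (t t' : Fin (ar i) → Tm1 R) :
      (∀ j, Der1 E₁ (t j) (t' j)) → Der2 E₁ E₂ (.app i t) (.app i t')

/-- The two-sorted algebra `M(A, B, F)` has a finite equational basis. -/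
def HasFiniteBasis (R S : Type*) {A B : Type*} [Ring R] [Ring S] [AddCommGroup A] [Module R A]
    [AddCommGroup B] [Module S B] {ι : Type*} (F : ι → Op A B) : Prop :=
  ∃ (E₁ : Set (Tm1 R × Tm1 R))
    (E₂ : Set (Tm2 R S (fun i => (F i).1 + 1) × Tm2 R S (fun i => (F i).1 + 1))),
    E₁.Finite ∧ E₂.Finite ∧
    -- the identities in `E₁` and `E₂` are true in `M(A, B, F)`
    (∀ e ∈ E₁, ∀ x : ℕ → A, e.1.eval x = e.2.eval x) ∧
    (∀ e ∈ E₂, ∀ (x : ℕ → A) (y : ℕ → B),
      e.1.eval (fun i => (F i).2) x y = e.2.eval (fun i => (F i).2) x y) ∧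
    -- every identity true in `M(A, B, F)` can be derived from them
    (∀ p q : Tm1 R, (∀ x : ℕ → A, p.eval x = q.eval x) → Der1 E₁ p q) ∧
    (∀ P Q : Tm2 R S (fun i => (F i).1 + 1),
      (∀ (x : ℕ → A) (y : ℕ → B), P.eval (fun i => (F i).2) x y = Q.eval (fun i => (F i).2) x y) →
        Der2 E₁ E₂ P Q)

/-! ### The module axioms -/

section axioms

variable (R A : Type*) [Ring R] [AddCommGroup A] [Module R A]

/-- module axioms together with the annihilator identities, sort 1 -/
def ax1 : Set (Tm1 R × Tm1 R) :=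
  {(.add (.add (.var 0) (.var 1)) (.var 2), .add (.var 0) (.add (.var 1) (.var 2))),
    (.add (.var 0) (.var 1), .add (.var 1) (.var 0)),
    (.add .zero (.var 0), .var 0),
    (.add (.neg (.var 0)) (.var 0), .zero),
    (.smul 1 (.var 0), .var 0)} ∪
  Set.range (fun r : R => (.smul r (.add (.var 0) (.var 1)),
    .add (.smul r (.var 0)) (.smul r (.var 1)))) ∪
  Set.range (fun r : R × R => (.smul (r.1 + r.2) (.var 0),
    .add (.smul r.1 (.var 0)) (.smul r.2 (.var 0)))) ∪
  Set.range (fun r : R × R => (.smul (r.1 * r.2) (.var 0),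
    .smul r.1 (.smul r.2 (.var 0)))) ∪
  Set.range (fun r : R => (.smul r .zero, .zero)) ∪
  ((fun r : R => (.smul r (.var 0), .zero)) '' {r | ∀ a : A, r • a = 0})

lemma ax1_finite [Finite R] : (ax1 R A).Finite := by
  unfold ax1
  refine Set.Finite.union (Set.Finite.union (Set.Finite.union (Set.Finite.union
    (Set.Finite.union (Set.toFinite _) (Set.finite_range _)) (Set.finite_range _))
    (Set.finite_range _)) (Set.finite_range _)) (Set.Finite.image _ (Set.toFinite _))

lemma ax1_true : ∀ e ∈ ax1 R A, ∀ x : ℕ → A, e.1.eval x = e.2.eval x := by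
  rintro e ((((((rfl | rfl | rfl | rfl | rfl) | ⟨r, rfl⟩) | ⟨⟨r, s⟩, rfl⟩) | ⟨⟨r, s⟩, rfl⟩) |
    ⟨r, rfl⟩) | ⟨r, hr, rfl⟩) x
  · simp [Tm1.eval, add_assoc]
  · simp [Tm1.eval, add_comm]
  · simp [Tm1.eval]
  · simp [Tm1.eval]
  · simp [Tm1.eval]
  · simp [Tm1.eval]
  · simp [Tm1.eval, add_smul]
  · simp [Tm1.eval, mul_smul]
  · simp [Tm1.eval]
  · simpa [Tm1.eval] using hr (x 0)

end axioms

/-! ### A generic construction of modules from operations satisfying the axioms -/

/-- operations on a type -/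
structure MOps (S X : Type*) where
  zero : X
  add : X → X → X
  neg : X → X
  smul : S → X → X

/-- evaluation -/
def MOps.ev {S X : Type*} (o : MOps S X) (v : ℕ → X) : Tm1 S → X
  | .var k => v k
  | .zero => o.zero
  | .add p q => o.add (o.ev v p) (o.ev v q)
  | .neg p => o.neg (o.ev v p)
  | .smul r p => o.smul r (o.ev v p)

section mops

variable {S X : Type*} (o : MOps S X) [Ring S] (B : Type*) [AddCommGroup B] [Module S B]
  (h : ∀ e ∈ ax1 S B, ∀ v : ℕ → X, o.ev v e.1 = o.ev v e.2)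

/-- the group structure -/
@[reducible] def MOps.grp : AddCommGroup X where
  add := o.add
  zero := o.zero
  neg := o.neg
  add_assoc a b c := h (.add (.add (.var 0) (.var 1)) (.var 2),
    .add (.var 0) (.add (.var 1) (.var 2))) (by simp [ax1])
    (fun k => if k = 0 then a else if k = 1 then b else c)
  add_comm a b := h (.add (.var 0) (.var 1), .add (.var 1) (.var 0)) (by simp [ax1])
    (fun k => if k = 0 then a else b)
  zero_add a := h (.add .zero (.var 0), .var 0) (by simp [ax1]) (fun _ => a)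
  add_zero a := (h (.add (.var 0) (.var 1), .add (.var 1) (.var 0)) (by simp [ax1])
    (fun k => if k = 0 then a else o.zero)).trans
      (h (.add .zero (.var 0), .var 0) (by simp [ax1]) (fun _ => a))
  neg_add_cancel a := h (.add (.neg (.var 0)) (.var 0), .zero) (by simp [ax1]) (fun _ => a)
  nsmul := @nsmulRec _ ⟨o.zero⟩ ⟨o.add⟩
  zsmul := @zsmulRec _ ⟨o.zero⟩ ⟨o.add⟩ ⟨o.neg⟩ (@nsmulRec _ ⟨o.zero⟩ ⟨o.add⟩)

/-- the module structure -/
@[reducible] def MOps.mod : @Module S X _ (o.grp B h).toAddCommMonoid :=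
  letI := o.grp B h
  { smul := o.smul
    one_smul := fun a => h (.smul 1 (.var 0), .var 0) (by simp [ax1]) (fun _ => a)
    mul_smul := fun r s a => h (.smul (r * s) (.var 0), .smul r (.smul s (.var 0)))
      (by
        refine Or.inl (Or.inl (Or.inr ?_))
        exact ⟨(r, s), rfl⟩) (fun _ => a)
    smul_zero := fun r => h (.smul r .zero, .zero)
      (by
        refine Or.inl (Or.inr ?_)
        exact ⟨r, rfl⟩) (fun _ => o.zero)
    smul_add := fun r a b => h (.smul r (.add (.var 0) (.var 1)),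
        .add (.smul r (.var 0)) (.smul r (.var 1)))
      (by
        refine Or.inl (Or.inl (Or.inl (Or.inl (Or.inr ?_))))
        exact ⟨r, rfl⟩) (fun k => if k = 0 then a else b)
    add_smul := fun r s a => h (.smul (r + s) (.var 0),
        .add (.smul r (.var 0)) (.smul s (.var 0)))
      (by
        refine Or.inl (Or.inl (Or.inl (Or.inr ?_)))
        exact ⟨(r, s), rfl⟩) (fun _ => a)
    zero_smul := fun a => h (.smul 0 (.var 0), .zero)
      (by
        refine Or.inr ?_
        exact ⟨0, by simp, rfl⟩) (fun _ => a) }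

include h in
lemma MOps.ann (r : S) (hr : ∀ b : B, r • b = 0) (x : X) : o.smul r x = o.zero :=
  h (.smul r (.var 0), .zero) (Or.inr ⟨r, hr, rfl⟩) (fun _ => x)

end mops

/-! ### Sort 1: the free algebra -/

section sort1

variable (R A : Type*) [Ring R] [AddCommGroup A] [Module R A]

/-- derivability as a setoid -/
def s1 : Setoid (Tm1 R) :=
  ⟨Der1 (ax1 R A), ⟨Der1.refl, fun h => Der1.symm _ _ h, fun h h' => Der1.trans _ _ _ h h'⟩⟩

/-- the free algebra of sort 1 -/
def Q1 := Quotient (s1 R A)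

variable {R} in
/-- the class of a term -/
def mk1 (p : Tm1 R) : Q1 R A := Quotient.mk (s1 R A) p

lemma mk1_eq {p q : Tm1 R} : mk1 A p = mk1 A q ↔ Der1 (ax1 R A) p q :=
  ⟨fun h => Quotient.exact h, fun h => Quotient.sound h⟩

/-- representative -/
noncomputable def out1 (x : Q1 R A) : Tm1 R := Quotient.out x

lemma mk1_out1 (x : Q1 R A) : mk1 A (out1 R A x) = x := Quotient.out_eq x

/-- the operations -/
def ops1 : MOps R (Q1 R A) where
  zero := mk1 A .zero
  add := Quotient.map₂ Tm1.add fun _ _ h _ _ h' => Der1.add _ _ _ _ h h'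
  neg := Quotient.map Tm1.neg fun _ _ h => Der1.neg _ _ h
  smul r := Quotient.map (Tm1.smul r) fun _ _ h => Der1.smul r _ _ h

lemma ops1_ev (σ : ℕ → Tm1 R) (p : Tm1 R) :
    (ops1 R A).ev (fun k => mk1 A (σ k)) p = mk1 A (p.subst σ) := by
  induction p with
  | var k => rfl
  | zero => rfl
  | add p q hp hq => rw [MOps.ev, hp, hq]; rfl
  | neg p hp => rw [MOps.ev, hp]; rfl
  | smul r p hp => rw [MOps.ev, hp]; rfl

lemma ops1_ax : ∀ e ∈ ax1 R A, ∀ v : ℕ → Q1 R A, (ops1 R A).ev v e.1 = (ops1 R A).ev v e.2 := by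
  intro e he v
  have hv : v = fun k => mk1 A (out1 R A (v k)) := funext fun k => (mk1_out1 R A (v k)).symm
  rw [hv, ops1_ev, ops1_ev, mk1_eq]
  exact Der1.ax _ _ he _

instance : AddCommGroup (Q1 R A) := (ops1 R A).grp A (ops1_ax R A)

instance : Module R (Q1 R A) := (ops1 R A).mod A (ops1_ax R A)

lemma mk1_subst (σ : ℕ → Tm1 R) (p : Tm1 R) :
    mk1 A (p.subst σ) = p.eval (fun k => mk1 A (σ k)) := by
  induction p with
  | var k => rfl
  | zero => rfl
  | add p q hp hq => rw [Tm1.eval, ← hp, ← hq]; rfl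
  | neg p hp => rw [Tm1.eval, ← hp]; rfl
  | smul r p hp => rw [Tm1.eval, ← hp]; rfl

omit [Ring R] in
lemma subst_var (p : Tm1 R) : p.subst .var = p := by
  induction p with
  | var k => rfl
  | zero => rfl
  | add p q hp hq => rw [Tm1.subst, hp, hq]
  | neg p hp => rw [Tm1.subst, hp]
  | smul r p hp => rw [Tm1.subst, hp]

lemma Q1_ann (r : R) (hr : ∀ a : A, r • a = 0) (x : Q1 R A) : r • x = 0 :=
  MOps.ann (ops1 R A) A (ops1_ax R A) r hr x

end sort1

/-! ### Sort 2: the free algebra -/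

section sort2

variable (R S : Type*) {ι : Type*} (ar : ι → ℕ) (A B : Type*) [Ring R] [Ring S]
  [AddCommGroup A] [Module R A] [AddCommGroup B] [Module S B]

/-- module terms as sort-2 terms -/
def toTm2 : Tm1 S → Tm2 R S ar
  | .var k => .var k
  | .zero => .zero
  | .add p q => .add (toTm2 p) (toTm2 q)
  | .neg p => .neg (toTm2 p)
  | .smul r p => .smul r (toTm2 p)

lemma toTm2_eval (F : ∀ i, (Fin (ar i) → A) → B) (x : ℕ → A) (y : ℕ → B) (p : Tm1 S) :
    (toTm2 R S ar p).eval F x y = p.eval y := by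
  induction p with
  | var k => rfl
  | zero => rfl
  | add p q hp hq => rw [toTm2, Tm2.eval, hp, hq]; rfl
  | neg p hp => rw [toTm2, Tm2.eval, hp]; rfl
  | smul r p hp => rw [toTm2, Tm2.eval, hp]; rfl

/-- sort-2 module axioms -/
def ax2 : Set (Tm2 R S ar × Tm2 R S ar) :=
  (fun e : Tm1 S × Tm1 S => (toTm2 R S ar e.1, toTm2 R S ar e.2)) '' ax1 S B

lemma ax2_true (F : ∀ i, (Fin (ar i) → A) → B) : ∀ e ∈ ax2 R S ar B, ∀ (x : ℕ → A) (y : ℕ → B),
    e.1.eval F x y = e.2.eval F x y := by
  rintro e ⟨e', he', rfl⟩ x y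
  simp only [toTm2_eval]
  exact ax1_true S B e' he' y

variable (Rl : Set (Tm2 R S ar × Tm2 R S ar))

/-- derivability as a setoid -/
def s2 : Setoid (Tm2 R S ar) :=
  ⟨Der2 (ax1 R A) (ax2 R S ar B ∪ Rl), ⟨Der2.refl, fun h => Der2.symm _ _ h,
    fun h h' => Der2.trans _ _ _ h h'⟩⟩

/-- the free algebra of sort 2 -/
def Q2 := Quotient (s2 R S ar A B Rl)

variable {R S ar} in
/-- the class of a term -/
def mk2 (p : Tm2 R S ar) : Q2 R S ar A B Rl := Quotient.mk (s2 R S ar A B Rl) p

lemma mk2_eq {p q : Tm2 R S ar} : mk2 A B Rl p = mk2 A B Rl q ↔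
    Der2 (ax1 R A) (ax2 R S ar B ∪ Rl) p q :=
  ⟨fun h => Quotient.exact h, fun h => Quotient.sound h⟩

/-- the operations -/
def ops2 : MOps S (Q2 R S ar A B Rl) where
  zero := mk2 A B Rl .zero
  add := Quotient.map₂ Tm2.add fun _ _ h _ _ h' => Der2.add _ _ _ _ h h'
  neg := Quotient.map Tm2.neg fun _ _ h => Der2.neg _ _ h
  smul r := Quotient.map (Tm2.smul r) fun _ _ h => Der2.smul r _ _ h

lemma ops2_ev (σ : ℕ → Tm1 R) (τ : ℕ → Tm2 R S ar) (p : Tm1 S) :
    (ops2 R S ar A B Rl).ev (fun k => mk2 A B Rl (τ k)) p =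
      mk2 A B Rl ((toTm2 R S ar p).subst σ τ) := by
  induction p with
  | var k => rfl
  | zero => rfl
  | add p q hp hq => rw [MOps.ev, hp, hq]; rfl
  | neg p hp => rw [MOps.ev, hp]; rfl
  | smul r p hp => rw [MOps.ev, hp]; rfl

lemma ops2_ax : ∀ e ∈ ax1 S B, ∀ v : ℕ → Q2 R S ar A B Rl,
    (ops2 R S ar A B Rl).ev v e.1 = (ops2 R S ar A B Rl).ev v e.2 := by
  intro e he v
  have hv : v = fun k => mk2 A B Rl (Quotient.out (v k)) :=
    funext fun k => (Quotient.out_eq (v k)).symm
  rw [hv, ops2_ev R S ar A B Rl .var, ops2_ev R S ar A B Rl .var, mk2_eq]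
  exact Der2.ax _ _ (Or.inl ⟨e, he, rfl⟩) _ _

instance : AddCommGroup (Q2 R S ar A B Rl) := (ops2 R S ar A B Rl).grp B (ops2_ax R S ar A B Rl)

instance : Module S (Q2 R S ar A B Rl) := (ops2 R S ar A B Rl).mod B (ops2_ax R S ar A B Rl)

/-- the operations of mixed sort -/
noncomputable def G2 (i : ι) (u : Fin (ar i) → Q1 R A) : Q2 R S ar A B Rl :=
  mk2 A B Rl (.app i fun j => out1 R A (u j))

lemma mk2_subst (σ : ℕ → Tm1 R) (τ : ℕ → Tm2 R S ar) (p : Tm2 R S ar) :
    mk2 A B Rl (p.subst σ τ) = p.eval (G2 R S ar A B Rl) (fun k => mk1 A (σ k))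
      (fun k => mk2 A B Rl (τ k)) := by
  induction p with
  | var k => rfl
  | zero => rfl
  | add p q hp hq => rw [Tm2.eval, ← hp, ← hq]; rfl
  | neg p hp => rw [Tm2.eval, ← hp]; rfl
  | smul r p hp => rw [Tm2.eval, ← hp]; rfl
  | app i t =>
    rw [Tm2.eval, Tm2.subst, G2, mk2_eq]
    refine Der2.app i _ _ fun j => ?_
    rw [← mk1_eq, mk1_out1, mk1_subst]

omit [Ring R] [Ring S] in
lemma subst_var2 (p : Tm2 R S ar) : p.subst .var .var = p := by
  induction p with
  | var k => rfl
  | zero => rfl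
  | add p q hp hq => rw [Tm2.subst, hp, hq]
  | neg p hp => rw [Tm2.subst, hp]
  | smul r p hp => rw [Tm2.subst, hp]
  | app i t =>
    rw [Tm2.subst]
    congr 1
    funext j
    exact subst_var R (t j)

lemma Q2_ann (r : S) (hr : ∀ b : B, r • b = 0) (x : Q2 R S ar A B Rl) : r • x = 0 :=
  MOps.ann (ops2 R S ar A B Rl) B (ops2_ax R S ar A B Rl) r hr x

end sort2

/-! ### Normal forms -/

section nf

open scoped BigOperators

variable {R S : Type*} {ι : Type*} {ar : ι → ℕ} [Ring R] [Ring S]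

/-- strict bound for the variables of a sort-1 term -/
def bd1 : Tm1 R → ℕ
  | .var k => k + 1
  | .zero => 0
  | .add p q => max (bd1 p) (bd1 q)
  | .neg p => bd1 p
  | .smul _ p => bd1 p

/-- strict bound for the sort-1 variables of a sort-2 term -/
def bd2 : Tm2 R S ar → ℕ
  | .var _ => 0
  | .zero => 0
  | .add p q => max (bd2 p) (bd2 q)
  | .neg p => bd2 p
  | .smul _ p => bd2 p
  | .app _ t => Finset.univ.sup fun j => bd1 (t j)

/-- coefficients of a sort-1 term -/
def nf1 (n : ℕ) : Tm1 R → (Fin (n + 1) → R)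
  | .var k => if h : k < n + 1 then Pi.single ⟨k, h⟩ 1 else 0
  | .zero => 0
  | .add p q => nf1 n p + nf1 n q
  | .neg p => - nf1 n p
  | .smul r p => r • nf1 n p

lemma nf1_eval {A : Type*} [AddCommGroup A] [Module R A] (n : ℕ) (x : ℕ → A) (p : Tm1 R)
    (h : bd1 p ≤ n + 1) : p.eval x = ∑ l : Fin (n + 1), nf1 n p l • x l := by
  induction p with
  | var k =>
    have hk : k < n + 1 := h
    rw [Tm1.eval, nf1, dif_pos hk, Finset.sum_eq_single ⟨k, hk⟩]
    · simp
    · intro b _ hb
      rw [Pi.single_eq_of_ne hb, zero_smul]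
    · simp
  | zero => simp [Tm1.eval, nf1]
  | add p q hp hq =>
    rw [Tm1.eval, hp (le_trans (le_max_left _ _) h), hq (le_trans (le_max_right _ _) h), nf1,
      ← Finset.sum_add_distrib]
    simp [add_smul]
  | neg p hp => rw [Tm1.eval, hp h, nf1]; simp
  | smul r p hp => rw [Tm1.eval, hp h, nf1]; simp [mul_smul, Finset.smul_sum]

/-- letters -/
abbrev Lt (R : Type*) {ι : Type*} (ar : ι → ℕ) := ∀ i : ι, Fin (ar i) → R

/-- formal combinations -/
abbrev PP (R S : Type*) {ι : Type*} (ar : ι → ℕ) (n : ℕ) :=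
  ι → (Fin (n + 1) → Lt R ar) → S

variable [Fintype ι] [Fintype R] [DecidableEq ι] [DecidableEq R]

/-- evaluation of formal combinations -/
def evP {X Y : Type*} [AddCommGroup X] [Module R X] [AddCommGroup Y] [Module S Y]
    (G : ∀ i, (Fin (ar i) → X) → Y) (n : ℕ) (f : PP R S ar n) (x : Fin (n + 1) → X) : Y :=
  ∑ i, ∑ w : Fin (n + 1) → Lt R ar, f i w • G i (fun j => ∑ l, w l i j • x l)

/-- formal combination of a sort-2 term -/
def nf2 (n : ℕ) : Tm2 R S ar → PP R S ar n
  | .var _ => 0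
  | .zero => 0
  | .add p q => nf2 n p + nf2 n q
  | .neg p => - nf2 n p
  | .smul r p => r • nf2 n p
  | .app i t => Pi.single i (Pi.single (fun l => Pi.single i (fun j => nf1 n (t j) l)) 1)

/-- the module part of a sort-2 term -/
noncomputable def nfy : Tm2 R S ar → (ℕ →₀ S)
  | .var k => Finsupp.single k 1
  | .zero => 0
  | .add p q => nfy p + nfy q
  | .neg p => - nfy p
  | .smul r p => r • nfy p
  | .app _ _ => 0

lemma evP_add {X Y : Type*} [AddCommGroup X] [Module R X] [AddCommGroup Y] [Module S Y]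
    (G : ∀ i, (Fin (ar i) → X) → Y) (n : ℕ) (f g : PP R S ar n) (x : Fin (n + 1) → X) :
    evP G n (f + g) x = evP G n f x + evP G n g x := by
  simp [evP, add_smul, Finset.sum_add_distrib]

lemma evP_neg {X Y : Type*} [AddCommGroup X] [Module R X] [AddCommGroup Y] [Module S Y]
    (G : ∀ i, (Fin (ar i) → X) → Y) (n : ℕ) (f : PP R S ar n) (x : Fin (n + 1) → X) :
    evP G n (-f) x = - evP G n f x := by
  simp [evP]

lemma evP_smul {X Y : Type*} [AddCommGroup X] [Module R X] [AddCommGroup Y] [Module S Y]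
    (G : ∀ i, (Fin (ar i) → X) → Y) (n : ℕ) (r : S) (f : PP R S ar n) (x : Fin (n + 1) → X) :
    evP G n (r • f) x = r • evP G n f x := by
  simp [evP, mul_smul, Finset.smul_sum]

lemma evP_zero {X Y : Type*} [AddCommGroup X] [Module R X] [AddCommGroup Y] [Module S Y]
    (G : ∀ i, (Fin (ar i) → X) → Y) (n : ℕ) (x : Fin (n + 1) → X) :
    evP G n (0 : PP R S ar n) x = 0 := by
  simp [evP]

lemma nf2_eval {X Y : Type*} [AddCommGroup X] [Module R X] [AddCommGroup Y] [Module S Y]
    (G : ∀ i, (Fin (ar i) → X) → Y) (n : ℕ) (x : ℕ → X) (y : ℕ → Y) (p : Tm2 R S ar)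
    (h : bd2 p ≤ n + 1) : p.eval G x y =
      Finsupp.linearCombination S y (nfy p) + evP G n (nf2 n p) (fun l => x l) := by
  induction p with
  | var k => simp [Tm2.eval, nf2, nfy, evP_zero]
  | zero => simp [Tm2.eval, nf2, nfy, evP_zero]
  | add p q hp hq =>
    rw [Tm2.eval, hp (le_trans (le_max_left _ _) h), hq (le_trans (le_max_right _ _) h), nf2,
      nfy, evP_add, map_add]
    abel
  | neg p hp => rw [Tm2.eval, hp h, nf2, nfy, evP_neg, map_neg, neg_add]
  | smul r p hp => rw [Tm2.eval, hp h, nf2, nfy, evP_smul, map_smul, smul_add]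
  | app i t =>
    have hb : ∀ j, bd1 (t j) ≤ n + 1 := fun j =>
      le_trans (Finset.le_sup (f := fun j => bd1 (t j)) (Finset.mem_univ j)) h
    rw [Tm2.eval, nf2, nfy, map_zero, zero_add, evP, Finset.sum_eq_single i,
      Finset.sum_eq_single (fun l => Pi.single i (fun j => nf1 n (t j) l))]
    · simp only [Pi.single_eq_same, one_smul]
      congr 1
      funext j
      exact nf1_eval n x (t j) (hb j)
    · intro b _ hb
      rw [Pi.single_eq_same, Pi.single_eq_of_ne hb, zero_smul]
    · simp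
    · intro b _ hb
      rw [Pi.single_eq_of_ne hb]
      simp
    · simp

/-- linear sort-1 term with given coefficients -/
def lin1 (n : ℕ) (c : Fin (n + 1) → R) : Tm1 R :=
  ((List.finRange (n + 1)).map fun l => Tm1.smul (c l) (.var l)).foldr .add .zero

lemma lin1_eval {A : Type*} [AddCommGroup A] [Module R A] (n : ℕ) (c : Fin (n + 1) → R)
    (x : ℕ → A) : (lin1 n c).eval x = ∑ l : Fin (n + 1), c l • x l := by
  have : ∀ L : List (Fin (n + 1)),
      (((L.map fun l => Tm1.smul (c l) (.var l)).foldr .add .zero) : Tm1 R).eval x =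
        (L.map fun l => c l • x l).sum := by
    intro L
    induction L with
    | nil => simp [Tm1.eval]
    | cons a L ih => simp [Tm1.eval, ih]
  rw [lin1, this]
  exact (List.sum_ofFn (f := fun l : Fin (n + 1) => c l • x l)) ▸ by rw [List.ofFn_eq_map]

/-- a term representing a formal combination -/
noncomputable def tm (n : ℕ) (f : PP R S ar n) : Tm2 R S ar :=
  ((Finset.univ : Finset (ι × (Fin (n + 1) → Lt R ar))).toList.map fun p =>
    Tm2.smul (f p.1 p.2) (.app p.1 fun j => lin1 n fun l => p.2 l p.1 j)).foldr .add .zero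

lemma tm_eval {X Y : Type*} [AddCommGroup X] [Module R X] [AddCommGroup Y] [Module S Y]
    (G : ∀ i, (Fin (ar i) → X) → Y) (n : ℕ) (f : PP R S ar n) (x : ℕ → X) (y : ℕ → Y) :
    (tm n f).eval G x y = evP G n f (fun l => x l) := by
  have : ∀ L : List (ι × (Fin (n + 1) → Lt R ar)),
      (((L.map fun p => Tm2.smul (f p.1 p.2)
        (.app p.1 fun j => lin1 n fun l => p.2 l p.1 j)).foldr .add .zero) :
          Tm2 R S ar).eval G x y =
        (L.map fun p => f p.1 p.2 •
          G p.1 (fun j => ∑ l : Fin (n + 1), p.2 l p.1 j • x l)).sum := by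
    intro L
    induction L with
    | nil => simp [Tm2.eval]
    | cons a L ih => simp [Tm2.eval, ih, lin1_eval]
  rw [tm, this, Finset.sum_map_toList, evP, Fintype.sum_prod_type]

/-- pull-back of formal combinations along `φ` -/
def pull {n m : ℕ} (φ : Fin (m + 1) → Fin (n + 1)) (f : PP R S ar n) : PP R S ar m :=
  fun i w' => ∑ w : Fin (n + 1) → Lt R ar, if w' = w ∘ φ then f i w else 0

lemma evP_pull {X Y : Type*} [AddCommGroup X] [Module R X] [AddCommGroup Y] [Module S Y]
    (G : ∀ i, (Fin (ar i) → X) → Y) {n m : ℕ} (φ : Fin (m + 1) → Fin (n + 1))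
    (f : PP R S ar n) (y : Fin (m + 1) → X) :
    evP G m (pull φ f) y = evP G n f (V114.Clon.push φ y) := by
  rw [evP, evP]
  refine Finset.sum_congr rfl fun i _ => ?_
  simp only [pull, Finset.sum_smul, ite_smul, zero_smul]
  rw [Finset.sum_comm]
  refine Finset.sum_congr rfl fun w _ => ?_
  rw [Finset.sum_ite_eq' Finset.univ (w ∘ φ)]
  simp only [Finset.mem_univ, if_true]
  congr 2
  funext j
  simp only [V114.Clon.push, Finset.smul_sum, Function.comp_apply]
  rw [Finset.sum_comm]
  refine Finset.sum_congr rfl fun l _ => ?_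
  simp

lemma pull_apply {n m : ℕ} (φ : Fin (m + 1) → Fin (n + 1)) (hφ : Function.Surjective φ)
    (f : PP R S ar n) (i : ι) (w : Fin (n + 1) → Lt R ar) : pull φ f i (w ∘ φ) = f i w := by
  rw [pull, Finset.sum_eq_single w]
  · simp
  · intro b _ hb
    rw [if_neg]
    intro hcon
    apply hb
    funext k
    obtain ⟨j, rfl⟩ := hφ k
    exact (congrFun hcon j).symm
  · simp

end nf

/-! ### The main argument -/

lemma Der2_mono {R S : Type*} {ι : Type*} {ar : ι → ℕ} {E₁ : Set (Tm1 R × Tm1 R)}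
    {E₂ E₂' : Set (Tm2 R S ar × Tm2 R S ar)} (h : E₂ ⊆ E₂') {p q : Tm2 R S ar}
    (hd : Der2 E₁ E₂ p q) : Der2 E₁ E₂' p q := by
  induction hd with
  | ax p q hpq σ τ => exact Der2.ax p q (h hpq) σ τ
  | refl p => exact Der2.refl p
  | symm p q _ ih => exact Der2.symm _ _ ih
  | trans p q r _ _ ih1 ih2 => exact Der2.trans _ _ _ ih1 ih2
  | add p p' q q' _ _ ih1 ih2 => exact Der2.add _ _ _ _ ih1 ih2
  | neg p p' _ ih => exact Der2.neg _ _ ih
  | smul r p p' _ ih => exact Der2.smul r _ _ ih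
  | app i t t' ht => exact Der2.app i t t' ht

section main

open V114.Clon

variable (R S : Type*) {A B : Type*} [Ring R] [Ring S] [AddCommGroup A] [Module R A]
    [AddCommGroup B] [Module S B] {ι : Type*} [Fintype ι] [Fintype R]
    [DecidableEq ι] [DecidableEq R] (F : ι → Op A B)

/-- arities -/
abbrev arF (i : ι) : ℕ := (F i).1 + 1

/-- true relations in `n + 1` variables -/
def Rel (n : ℕ) : Set (PP R S (arF F) n) :=
  {f | ∀ x : Fin (n + 1) → A, evP (ar := arF F) (fun i => (F i).2) n f x = 0}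

/-- the relation identities in at most `N + 1` variables -/
def Rl (N : ℕ) : Set (Tm2 R S (arF F) × Tm2 R S (arF F)) :=
  ⋃ n ∈ Finset.range (N + 1), (fun f => (tm n f, Tm2.zero)) '' Rel R S F n

lemma Rl_mono {N N' : ℕ} (h : N ≤ N') : Rl R S F N ⊆ Rl R S F N' := by
  intro e he
  simp only [Rl, Set.mem_iUnion, Finset.mem_range] at he ⊢
  obtain ⟨n, hn, he⟩ := he
  exact ⟨n, by omega, he⟩

lemma Rl_finite [Finite S] (N : ℕ) : (Rl R S F N).Finite := by
  refine Set.Finite.biUnion (Finset.finite_toSet _) fun n _ => Set.Finite.image _ (Set.toFinite _)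

lemma Rl_true (N : ℕ) : ∀ e ∈ Rl R S F N, ∀ (x : ℕ → A) (y : ℕ → B),
    e.1.eval (fun i => (F i).2) x y = e.2.eval (fun i => (F i).2) x y := by
  intro e he x y
  simp only [Rl, Set.mem_iUnion] at he
  obtain ⟨n, hn, f, hf, rfl⟩ := he
  rw [tm_eval]
  exact hf _

/-- formal combinations vanishing in the free algebra -/
def GG (N n : ℕ) : AddSubgroup (PP R S (arF F) n) where
  carrier := {f | ∀ x : Fin (n + 1) → Q1 R A,
    evP (G2 R S (arF F) A B (Rl R S F N)) n f x = 0}
  zero_mem' x := evP_zero _ _ _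
  add_mem' {f g} hf hg x := by rw [evP_add, hf, hg, add_zero]
  neg_mem' {f} hf x := by rw [evP_neg, hf, neg_zero]

lemma mem_GG {N n : ℕ} {f : PP R S (arF F) n} : f ∈ GG R S F N n ↔ ∀ σ : ℕ → Tm1 R,
    Der2 (ax1 R A) (ax2 R S (arF F) B ∪ Rl R S F N) ((tm n f).subst σ .var) .zero := by
  have key : ∀ σ : ℕ → Tm1 R, mk2 A B (Rl R S F N) ((tm n f).subst σ .var) =
      evP (G2 R S (arF F) A B (Rl R S F N)) n f (fun l => mk1 A (σ l)) := by
    intro σ
    rw [mk2_subst, tm_eval]
  constructor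
  · intro h σ
    rw [← mk2_eq, key]
    exact h _
  · intro h x
    have h1 := h (fun k => if hk : k < n + 1 then out1 R A (x ⟨k, hk⟩) else .zero)
    rw [← mk2_eq, key] at h1
    have h2 : (fun l : Fin (n + 1) => mk1 A
        ((fun k : ℕ => if hk : k < n + 1 then out1 R A (x ⟨k, hk⟩) else .zero) l)) = x := by
      funext l
      have hl : (l : ℕ) < n + 1 := l.2
      beta_reduce
      rw [dif_pos hl]
      exact mk1_out1 R A _
    rw [h2] at h1
    exact h1

lemma GG_mono {N N' n : ℕ} (h : N ≤ N') : GG R S F N n ≤ GG R S F N' n := by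
  intro f hf
  rw [mem_GG] at hf ⊢
  exact fun σ => Der2_mono (Set.union_subset_union_right _ (Rl_mono R S F h)) (hf σ)

lemma Rel_GG {N n : ℕ} (h : n ≤ N) {f : PP R S (arF F) n} (hf : f ∈ Rel R S F n) :
    f ∈ GG R S F N n := by
  rw [mem_GG]
  intro σ
  refine Der2.ax (tm n f) .zero (Or.inr ?_) σ .var
  simp only [Rl, Set.mem_iUnion, Finset.mem_range]
  exact ⟨n, by omega, f, hf, rfl⟩

lemma exists_stable [Finite S] : ∃ N, ∀ N', N ≤ N' → ∀ n, GG R S F N' n ≤ GG R S F N n := by
  classical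
  have hfinL : Finite (Lt R (arF F)) := inferInstance
  let : LinearOrder (Lt R (arF F)) :=
    LinearOrder.lift' (Finite.equivFin (Lt R (arF F))) (Finite.equivFin _).injective
  let : LinearOrder ι := LinearOrder.lift' (Finite.equivFin ι) (Finite.equivFin _).injective
  obtain ⟨N, hN⟩ := stable (S := Lt R (arF F)) (M := ι × S)
    (fun N n w => {p | ∃ f ∈ GG R S F N n,
      (∀ (d : ι) (v : Fin (n + 1) → Lt R (arF F)), toLex (d, toLex v) < toLex (p.1, toLex w) →
        f d v = 0) ∧ f p.1 w = p.2})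
    (fun N N' n w h => by
      rintro p ⟨f, hf, h1, h2⟩
      exact ⟨f, GG_mono R S F h hf, h1, h2⟩)
    (by
      rintro N n m w w' ⟨e, φ, he1, he2, he3⟩ p ⟨f, hf, h1, h2⟩
      have hw' : w' = w ∘ φ := funext he3
      have hφ : Function.Surjective φ := fun i => ⟨e i, he1 i⟩
      refine ⟨pull φ f, fun y => ?_, ?_, ?_⟩
      · rw [evP_pull]
        exact hf _
      · intro d v hv
        refine Finset.sum_eq_zero fun u _ => ?_
        by_cases hu : v = u ∘ φ
        · rw [if_pos hu]
          refine h1 d u ?_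
          rw [hw', hu, Prod.Lex.toLex_lt_toLex] at hv
          rw [Prod.Lex.toLex_lt_toLex]
          rcases hv with hv | ⟨hv1, hv2⟩
          · exact Or.inl hv
          · refine Or.inr ⟨hv1, ?_⟩
            by_contra hcon
            rcases lt_or_eq_of_le (not_lt.1 hcon) with h4 | h4
            · have h5 := Emb.lex e φ he1 he2 _ _ h4
              exact lt_asymm hv2 h5
            · have h5 : w = u := h4
              rw [h5] at hv2
              exact lt_irrefl _ hv2
        · rw [if_neg hu]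
      · rw [hw', pull_apply φ hφ, h2])
  refine ⟨N, fun N' hN' n => ?_⟩
  have : Finite (ι ×ₗ Lex (Fin (n + 1) → Lt R (arF F))) :=
    inferInstanceAs (Finite (ι × (Fin (n + 1) → Lt R (arF F))))
  have := lead (W := ι ×ₗ Lex (Fin (n + 1) → Lt R (arF F))) (GG R S F N n) (GG R S F N' n)
    (GG_mono R S F hN')
    (T := { toFun := fun f w => f (ofLex w).1 (ofLex (ofLex w).2)
            map_zero' := rfl
            map_add' := fun f g => rfl })
    (fun f hf => by
      funext d v
      exact congrFun hf (toLex (d, toLex v)))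
    (fun w f hf hv => by
      obtain ⟨g, hg1, hg2, hg3⟩ := hN N' hN' n (ofLex (ofLex w).2)
        (show ((ofLex w).1, f (ofLex w).1 (ofLex (ofLex w).2)) ∈ _ from
          ⟨f, hf, fun d v hdv => hv (toLex (d, toLex v)) hdv, rfl⟩)
      exact ⟨g, hg1, fun v hv => hg2 _ _ hv, hg3⟩)
  exact this.ge

end main

/-- **Finite equational bases.** Let `R` and `S` be finite rings, `A` an `R`-module, `B` an
`S`-module and `F` a finite family of finitary operations from `A` to `B`. Then the two-sorted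
algebra `M(A, B, F)` has a finite equational basis. -/
theorem result.{u₁, u₂, u₃, u₄, u₅} (R : Type u₁) (S : Type u₂) [Ring R] [Ring S] [Finite R]
    [Finite S] (A : Type u₃) (B : Type u₄) [AddCommGroup A] [Module R A] [AddCommGroup B]
    [Module S B] (ι : Type u₅) [Finite ι] (F : ι → Op A B) : HasFiniteBasis R S F := by
  classical
  let : Fintype R := Fintype.ofFinite R
  let : Fintype ι := Fintype.ofFinite ι
  obtain ⟨N, hN⟩ := exists_stable R S F
  have hGG : ∀ n (f : PP R S (arF F) n), f ∈ Rel R S F n → f ∈ GG R S F N n := fun n f hf =>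
    hN (max n N) (le_max_right _ _) n (Rel_GG R S F (le_max_left _ _) hf)
  refine ⟨ax1 R A, ax2 R S (arF F) B ∪ Rl R S F N, ax1_finite R A,
    Set.Finite.union (Set.Finite.image _ (ax1_finite S B)) (Rl_finite R S F N),
    ax1_true R A, ?_, ?_, ?_⟩
  · rintro e (he | he) x y
    · exact ax2_true R S (arF F) A B (fun i => (F i).2) e he x y
    · exact Rl_true R S F N e he x y
  · intro p q h
    rw [← mk1_eq]
    set n := max (bd1 p) (bd1 q) with hn
    have hp : ∀ (x : ℕ → Q1 R A), p.eval x = ∑ l : Fin (n + 1), nf1 n p l • x l := fun x =>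
      nf1_eval n x p (by omega)
    have hq : ∀ (x : ℕ → Q1 R A), q.eval x = ∑ l : Fin (n + 1), nf1 n q l • x l := fun x =>
      nf1_eval n x q (by omega)
    have hp' : ∀ (x : ℕ → A), p.eval x = ∑ l : Fin (n + 1), nf1 n p l • x l := fun x =>
      nf1_eval n x p (by omega)
    have hq' : ∀ (x : ℕ → A), q.eval x = ∑ l : Fin (n + 1), nf1 n q l • x l := fun x =>
      nf1_eval n x q (by omega)
    have hsum : ∀ (c : Fin (n + 1) → R) (k : Fin (n + 1)) (a : A),
        ∑ l : Fin (n + 1), c l • (Pi.single (k : ℕ) a : ℕ → A) l = c k • a := by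
      intro c k a
      rw [Finset.sum_eq_single k]
      · simp
      · intro b _ hb
        rw [Pi.single_eq_of_ne (fun hcon => hb (Fin.ext hcon)), smul_zero]
      · simp
    have hann : ∀ (k : Fin (n + 1)) (a : A), (nf1 n p k - nf1 n q k) • a = 0 := by
      intro k a
      have h1 := h (Pi.single (k : ℕ) a)
      rw [hp', hq', hsum, hsum] at h1
      rw [sub_smul, h1, sub_self]
    rw [← subst_var R p, ← subst_var R q, mk1_subst, mk1_subst, hp, hq]
    refine Finset.sum_congr rfl fun l _ => ?_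
    rw [← sub_eq_zero, ← sub_smul]
    exact Q1_ann R A _ (hann l) _
  · intro P Q h
    rw [← mk2_eq]
    set n := max (bd2 P) (bd2 Q) with hn
    have hP' : ∀ (x : ℕ → A) (y : ℕ → B), P.eval (fun i => (F i).2) x y =
        Finsupp.linearCombination S y (nfy P) +
          evP (ar := arF F) (fun i => (F i).2) n (nf2 n P) (fun l => x l) := fun x y =>
      nf2_eval _ n x y P (by omega)
    have hQ' : ∀ (x : ℕ → A) (y : ℕ → B), Q.eval (fun i => (F i).2) x y =
        Finsupp.linearCombination S y (nfy Q) +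
          evP (ar := arF F) (fun i => (F i).2) n (nf2 n Q) (fun l => x l) := fun x y =>
      nf2_eval _ n x y Q (by omega)
    have hrel : nf2 n P - nf2 n Q ∈ Rel R S F n := by
      intro x
      have h1 := h (fun k => if hk : k < n + 1 then x ⟨k, hk⟩ else 0) 0
      rw [hP', hQ'] at h1
      simp only [Finsupp.linearCombination_zero, LinearMap.zero_apply, zero_add, Fin.is_lt,
        dite_true, Fin.eta] at h1
      rw [sub_eq_add_neg, evP_add, evP_neg, h1, add_neg_cancel]
    have hann : ∀ (k : ℕ) (b : B), (nfy P k - nfy Q k) • b = 0 := by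
      intro k b
      have h1 := h 0 (Pi.single k b)
      have h2 := h 0 0
      rw [hP', hQ'] at h1 h2
      simp only [Finsupp.linearCombination_zero, LinearMap.zero_apply, zero_add] at h2
      rw [h2] at h1
      have h3 := add_right_cancel h1
      have h4 : ∀ c : ℕ →₀ S, Finsupp.linearCombination S (Pi.single k b : ℕ → B) c = c k • b := by
        intro c
        rw [Finsupp.linearCombination_apply, Finsupp.sum_eq_single k]
        · simp
        · intro j _ hj
          rw [Pi.single_eq_of_ne hj, smul_zero]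
        · simp
      rw [h4, h4] at h3
      rw [sub_smul, h3, sub_self]
    have hG := hGG n _ hrel
    have e1 : mk2 A B (Rl R S F N) P = P.eval (G2 R S (arF F) A B (Rl R S F N))
        (fun k => mk1 A (Tm1.var k)) (fun k => mk2 A B (Rl R S F N) (Tm2.var k)) := by
      rw [← mk2_subst, subst_var2]
    have e2 : mk2 A B (Rl R S F N) Q = Q.eval (G2 R S (arF F) A B (Rl R S F N))
        (fun k => mk1 A (Tm1.var k)) (fun k => mk2 A B (Rl R S F N) (Tm2.var k)) := by
      rw [← mk2_subst, subst_var2]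
    have e3 : Finsupp.linearCombination S (fun k => mk2 A B (Rl R S F N) (Tm2.var k)) (nfy P) =
        Finsupp.linearCombination S (fun k => mk2 A B (Rl R S F N) (Tm2.var k)) (nfy Q) := by
      rw [← sub_eq_zero, ← map_sub, Finsupp.linearCombination_apply]
      refine Finset.sum_eq_zero fun k _ => ?_
      exact Q2_ann R S (arF F) A B _ _ (hann k) _
    have e4 := hG (fun l => mk1 A (Tm1.var l))
    rw [sub_eq_add_neg, evP_add, evP_neg, ← sub_eq_add_neg, sub_eq_zero] at e4
    rw [e1, e2, nf2_eval _ n _ _ P (by omega), nf2_eval _ n _ _ Q (by omega), e3, e4]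

end Pool.Agent.Results.MP_2f8e94_al.FiniteBasis
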